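import Pool.Agent.Helper43.FV.Spec

/-!
# Adeles of a function field: auxiliary facts for WEIL and RR
-/

namespace Pool.Agent.Helper43.FV

section Ad

variable {F : Type} [Field F] [Algebra ℂ F]

theorem Ad_one (w : Pl F) : w.1 1 = 0 := by
  have := w.2.const 1
  rwa [map_one] at this

theorem Ad_inv (w : Pl F) {f : F} (hf : f ≠ 0) : w.1 f⁻¹ = -w.1 f := by
  have h := w.2.mul f f⁻¹ hf (inv_ne_zero hf)
  rw [mul_inv_cancel₀ hf, Ad_one] at h
  omega

theorem Ad_pow (w : Pl F) {f : F} (hf : f ≠ 0) (n : ℕ) : w.1 (f ^ n) = n * w.1 f := by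
  induction n with
  | zero => rw [pow_zero, Ad_one]; simp
  | succ n ih =>
    rw [pow_succ, w.2.mul _ _ (pow_ne_zero _ hf) hf, ih]
    push_cast
    ring

theorem Ad_exists (w : Pl F) (m : ℤ) : ∃ f : F, f ≠ 0 ∧ w.1 f = m := by
  obtain ⟨t, ht, h1⟩ := w.2.one
  obtain ⟨n, rfl | rfl⟩ := Int.eq_nat_or_neg m
  · exact ⟨t ^ n, pow_ne_zero _ ht, by rw [Ad_pow w ht, h1, mul_one]⟩
  · exact ⟨(t ^ n)⁻¹, inv_ne_zero (pow_ne_zero _ ht), by
      rw [Ad_inv w (pow_ne_zero _ ht), Ad_pow w ht, h1, mul_one]⟩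

/-- `w` of a difference, with lower bounds. -/
theorem Ad_sub_le (w : Pl F) {f g : F} {m : ℤ} (hf : f ≠ 0 → m ≤ w.1 f) (hg : g ≠ 0 → m ≤ w.1 g)
    (c : ℂ) : f - algebraMap ℂ F c * g ≠ 0 → m ≤ w.1 (f - algebraMap ℂ F c * g) := by
  intro h
  by_cases hf0 : f = 0
  · subst hf0
    rw [zero_sub] at h ⊢
    have h1 : algebraMap ℂ F c * g ≠ 0 := neg_ne_zero.1 h
    have h2 : -(algebraMap ℂ F c * g) = algebraMap ℂ F (-c) * g := by rw [map_neg]; ring
    rw [h2] at h ⊢
    rw [w.2.mul _ _ (left_ne_zero_of_mul h) (right_ne_zero_of_mul h), w.2.const, zero_add]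
    exact hg (right_ne_zero_of_mul h)
  by_cases hg0 : algebraMap ℂ F c * g = 0
  · rw [hg0, sub_zero] at h ⊢
    exact hf h
  have h2 : -(algebraMap ℂ F c * g) = algebraMap ℂ F (-c) * g := by rw [map_neg]; ring
  have h3 : algebraMap ℂ F (-c) * g ≠ 0 := by rw [← h2]; exact neg_ne_zero.2 hg0
  rw [sub_eq_add_neg, h2] at h ⊢
  have h4 := w.2.add _ _ hf0 h3 h
  have h5 : w.1 (algebraMap ℂ F (-c) * g) = w.1 g := by
    rw [w.2.mul _ _ (left_ne_zero_of_mul h3) (right_ne_zero_of_mul h3), w.2.const, zero_add]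
  rw [h5] at h4
  have h6 := hf hf0
  have h7 := hg (right_ne_zero_of_mul h3)
  exact le_trans (le_min h6 h7) h4

/-- adeles bounded by `D` -/
def Ad (D : Dv F) : Submodule ℂ (adele F) where
  carrier := {α | ∀ w : Pl F, (α : Pl F → F) w ≠ 0 → 0 ≤ w.1 ((α : Pl F → F) w) + D w}
  zero_mem' := by
    intro w h
    exact absurd rfl h
  add_mem' := by
    intro a b ha hb w hab
    have e : ((a + b : adele F) : Pl F → F) w
        = (a : Pl F → F) w - algebraMap ℂ F (-1) * (b : Pl F → F) w := by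
      rw [Submodule.coe_add, Pi.add_apply, map_neg, map_one]
      ring
    rw [e] at hab ⊢
    have := Ad_sub_le w (f := (a : Pl F → F) w) (g := (b : Pl F → F) w) (m := -D w)
      (fun h => by have := ha w h; omega) (fun h => by have := hb w h; omega) (-1) hab
    omega
  smul_mem' := by
    intro c a ha w hca
    have e : ((c • a : adele F) : Pl F → F) w
        = 0 - algebraMap ℂ F (-c) * (a : Pl F → F) w := by
      rw [Submodule.coe_smul, Pi.smul_apply, map_neg, Algebra.smul_def]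
      ring
    rw [e] at hca ⊢
    have := Ad_sub_le w (f := (0 : F)) (g := (a : Pl F → F) w) (m := -D w)
      (fun h => absurd rfl h) (fun h => by have := ha w h; omega) (-c) hca
    omega

theorem mem_Ad {D : Dv F} {α : adele F} :
    α ∈ Ad D ↔ ∀ w : Pl F, (α : Pl F → F) w ≠ 0 → 0 ≤ w.1 ((α : Pl F → F) w) + D w := Iff.rfl

theorem Ad_mono {D D' : Dv F} (h : D ≤ D') : Ad D ≤ Ad D' := by
  intro α hα w hw
  have := hα w hw
  have := h w
  omega

/-- every adele is bounded by some divisor above a given one -/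
theorem Ad_exists_div (D : Dv F) (α : adele F) : ∃ D' : Dv F, D ≤ D' ∧ α ∈ Ad D' := by
  classical
  have hfin := α.2
  set T : Finset (Pl F) := D.support ∪ hfin.toFinset with hT
  refine ⟨Finsupp.onFinset T (fun w => if w ∈ T then max (D w) (max 0 (-w.1 ((α : Pl F → F) w)))
    else 0) ?_, ?_, ?_⟩
  · intro w hw
    by_contra hcon
    rw [if_neg hcon] at hw
    exact hw rfl
  · intro w
    rw [Finsupp.onFinset_apply]
    split_ifs with h
    · exact le_max_left _ _
    · rw [hT, Finset.mem_union, not_or, Finsupp.notMem_support_iff] at h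
      exact h.1.le
  · intro w hw
    rw [Finsupp.onFinset_apply]
    split_ifs with h
    · have h1 : -w.1 ((α : Pl F → F) w) ≤
          max (D w) (max 0 (-w.1 ((α : Pl F → F) w))) :=
        le_trans (le_max_right _ _) (le_max_right _ _)
      omega
    · rw [hT, Finset.mem_union, not_or, Set.Finite.mem_toFinset] at h
      have h2 := h.2
      by_contra hcon
      apply h2
      refine ⟨hw, ?_⟩
      omega

theorem Ad_const_mem (hD : ST_DEG) (hF : FF F) (f : F) : (fun _ : Pl F => f) ∈ adele F := by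
  by_cases hf : f = 0
  · subst hf
    exact (adele F).zero_mem
  obtain ⟨D, h1, -⟩ := hD F hF f hf
  apply Set.Finite.subset D.support.finite_toSet
  rintro w ⟨-, hw⟩
  rw [Finset.mem_coe, Finsupp.mem_support_iff, h1 w]
  exact hw.ne

/-- the diagonal embedding -/
def Ad_cst (hD : ST_DEG) (hF : FF F) : F →ₗ[ℂ] adele F where
  toFun f := ⟨fun _ => f, Ad_const_mem hD hF f⟩
  map_add' _ _ := rfl
  map_smul' _ _ := rfl

theorem Ad_cst_apply (hD : ST_DEG) (hF : FF F) (f : F) (w : Pl F) :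
    ((Ad_cst hD hF f : adele F) : Pl F → F) w = f := rfl

theorem Ad_cst_mem (hD : ST_DEG) (hF : FF F) {f : F} {D : Dv F} :
    Ad_cst hD hF f ∈ Ad D ↔ f ∈ LL D := by
  rw [mem_Ad, mem_LL]
  constructor
  · intro h hf w
    exact h w hf
  · intro h w hf
    exact h hf w

theorem Ad_mem_weil (hD : ST_DEG) (hF : FF F) {D : Dv F} {ω : Module.Dual ℂ (adele F)} :
    ω ∈ weil D ↔ (∀ α ∈ Ad D, ω α = 0) ∧ ∀ f : F, ω (Ad_cst hD hF f) = 0 := by
  constructor
  · rintro ⟨h1, h2⟩
    exact ⟨fun α hα => h1 α hα, fun f => h2 f _⟩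
  · rintro ⟨h1, h2⟩
    exact ⟨fun α hα => h1 α hα, fun f h => h2 f⟩

theorem Ad_dg_add (D D' : Dv F) : dg (D + D') = dg D + dg D' := by
  unfold dg
  exact Finsupp.sum_add_index' (fun _ => rfl) (fun _ _ _ => rfl)

theorem Ad_dg_zero : dg (0 : Dv F) = 0 := Finsupp.sum_zero_index

theorem Ad_dg_neg (D : Dv F) : dg (-D) = -dg D := by
  have h := Ad_dg_add D (-D)
  rw [add_neg_cancel, Ad_dg_zero] at h
  omega

theorem Ad_dg_sub (D D' : Dv F) : dg (D - D') = dg D - dg D' := by
  rw [sub_eq_add_neg, Ad_dg_add, Ad_dg_neg]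
  ring

theorem Ad_dg_single (w : Pl F) (n : ℤ) : dg (Finsupp.single w n) = n := by
  unfold dg
  exact Finsupp.sum_single_index rfl

theorem Ad_dg_nonneg {D : Dv F} (h : 0 ≤ D) : 0 ≤ dg D := by
  unfold dg
  exact Finset.sum_nonneg fun w _ => h w

theorem Ad_dg_mono {D D' : Dv F} (h : D ≤ D') : dg D ≤ dg D' := by
  have h1 : 0 ≤ D' - D := by
    intro w
    have := h w
    simp only [Finsupp.coe_zero, Pi.zero_apply, Finsupp.coe_sub, Pi.sub_apply]
    omega
  have h2 := Ad_dg_nonneg h1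
  rw [Ad_dg_sub] at h2
  omega

/-- a place exists -/
theorem Ad_place (hD : ST_DEG) (hF : FF F) : Nonempty (Pl F) := by
  obtain ⟨t, ht⟩ := hF.nonconst
  have h0 : t ≠ 0 := by
    have := ht 0
    rwa [map_zero] at this
  obtain ⟨D, -, -, h3⟩ := hD F hF t h0
  obtain ⟨h4, h5⟩ := h3 ht
  by_contra hcon
  rw [not_nonempty_iff] at hcon
  have : D = 0 := by
    ext w
    exact hcon.elim w
  subst this
  rw [Finsupp.sum_zero_index] at h5
  omega

theorem Ad_LL_neg (hD : ST_DEG) (hF : FF F) {D : Dv F} (h : dg D < 0) : ll D = 0 := by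
  have : LL D = ⊥ := by
    rw [Submodule.eq_bot_iff]
    intro f hf
    by_contra h0
    obtain ⟨E, h1, h2, -⟩ := hD F hF f h0
    have h3 : 0 ≤ E + D := by
      intro w
      have := hf h0 w
      rw [← h1 w] at this
      simpa using this
    have h4 := Ad_dg_nonneg h3
    rw [Ad_dg_add] at h4
    omega
  rw [ll, this, finrank_bot]
  rfl

/-- The leading coefficient argument. -/
theorem Ad_res (hR : ST_RES) (hF : FF F) (w : Pl F) {f g : F} (hf : f ≠ 0)
    (hg : g ≠ 0 → w.1 f ≤ w.1 g) :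
    ∃ c : ℂ, g - algebraMap ℂ F c * f ≠ 0 → w.1 f < w.1 (g - algebraMap ℂ F c * f) := by
  by_cases hg0 : g = 0
  · exact ⟨0, fun h => by rw [hg0, map_zero, zero_mul, sub_zero] at h; exact absurd rfl h⟩
  rcases (hg hg0).lt_or_eq with h | h
  · refine ⟨0, fun _ => ?_⟩
    rw [map_zero, zero_mul, sub_zero]
    exact h
  have h1 : g * f⁻¹ ≠ 0 := mul_ne_zero hg0 (inv_ne_zero hf)
  have h2 : w.1 (g * f⁻¹) = 0 := by
    rw [w.2.mul _ _ hg0 (inv_ne_zero hf), Ad_inv w hf]
    omega
  obtain ⟨c, -, hc⟩ := hR F hF w _ h1 h2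
  refine ⟨c, fun h3 => ?_⟩
  have e : g - algebraMap ℂ F c * f = (g * f⁻¹ - algebraMap ℂ F c) * f := by
    rw [sub_mul, mul_assoc, inv_mul_cancel₀ hf, mul_one]
  rw [e] at h3 ⊢
  have h4 : g * f⁻¹ - algebraMap ℂ F c ≠ 0 := left_ne_zero_of_mul h3
  rcases hc with hc | hc
  · exact absurd (by rw [hc, sub_self]) h4
  · rw [w.2.mul _ _ h4 hf]
    omega

/-- one step -/
theorem Ad_step (hR : ST_RES) (hF : FF F) (D : Dv F) (w : Pl F) {α₀ : adele F}
    (h1 : α₀ ∈ Ad (D + Finsupp.single w 1)) (h2 : α₀ ∉ Ad D) {α : adele F}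
    (h3 : α ∈ Ad (D + Finsupp.single w 1)) : ∃ c : ℂ, α - c • α₀ ∈ Ad D := by
  classical
  rw [mem_Ad] at h2
  push Not at h2
  obtain ⟨w', h4, h5⟩ := h2
  have h6 := h1 w' h4
  rw [Finsupp.add_apply, Finsupp.single_apply] at h6
  have hww : w = w' := by
    by_contra hcon
    rw [if_neg hcon] at h6
    omega
  subst hww
  rw [if_pos rfl] at h6
  obtain ⟨c, hc⟩ := Ad_res hR hF w (f := (α₀ : Pl F → F) w) (g := (α : Pl F → F) w) h4
    (fun h => by
      have := h3 w h
      rw [Finsupp.add_apply, Finsupp.single_apply, if_pos rfl] at this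
      omega)
  refine ⟨c, fun v hv => ?_⟩
  have e : ((α - c • α₀ : adele F) : Pl F → F) v
      = (α : Pl F → F) v - algebraMap ℂ F c * (α₀ : Pl F → F) v := by
    rw [Submodule.coe_sub, Submodule.coe_smul, Pi.sub_apply, Pi.smul_apply, Algebra.smul_def]
  rw [e] at hv ⊢
  by_cases hvw : v = w
  · subst hvw
    have := hc hv
    omega
  · have := Ad_sub_le v (f := (α : Pl F → F) v) (g := (α₀ : Pl F → F) v) (m := -D v)
      (fun h => by
        have := h3 v h
        rw [Finsupp.add_apply, Finsupp.single_apply, if_neg (Ne.symm hvw)] at this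
        omega)
      (fun h => by
        have := h1 v h
        rw [Finsupp.add_apply, Finsupp.single_apply, if_neg (Ne.symm hvw)] at this
        omega) c hv
    omega

/-- an adele in `A(D+w)` but not in `A(D)` -/
theorem Ad_exists_step (D : Dv F) (w : Pl F) :
    ∃ α₀ : adele F, α₀ ∈ Ad (D + Finsupp.single w 1) ∧ α₀ ∉ Ad D := by
  classical
  obtain ⟨t, ht, h1⟩ := Ad_exists w (-D w - 1)
  have hmem : (fun v : Pl F => if v = w then t else 0) ∈ adele F := by
    apply Set.Finite.subset (Set.finite_singleton w)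
    rintro v ⟨hv, -⟩
    rw [Set.mem_singleton_iff]
    by_contra hcon
    exact hv (if_neg hcon)
  refine ⟨⟨_, hmem⟩, ?_, ?_⟩
  · intro v hv
    by_cases hvw : v = w
    · subst hvw
      change 0 ≤ v.1 (if v = v then t else 0) + _
      rw [if_pos rfl, h1, Finsupp.add_apply, Finsupp.single_apply, if_pos rfl]
      omega
    · change (if v = w then t else 0) ≠ 0 at hv
      rw [if_neg hvw] at hv
      exact absurd rfl hv
  · intro h
    have hv : ((⟨_, hmem⟩ : adele F) : Pl F → F) w ≠ 0 := by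
      change (if w = w then t else 0) ≠ 0
      rwa [if_pos rfl]
    have h2 := h w hv
    change 0 ≤ w.1 (if w = w then t else 0) + D w at h2
    rw [if_pos rfl, h1] at h2
    omega

/-- one more dimension -/
theorem Ad_finrank {V : Type} [AddCommGroup V] [Module ℂ V] (U U' : Submodule ℂ V)
    [Module.Finite ℂ U] (hUU : U ≤ U') (v₀ : V) (h1 : v₀ ∈ U') (h2 : v₀ ∉ U)
    (h3 : ∀ v ∈ U', ∃ c : ℂ, v - c • v₀ ∈ U) :
    Module.Finite ℂ U' ∧ Module.finrank ℂ U' = Module.finrank ℂ U + 1 := by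
  have e : U' = U ⊔ Submodule.span ℂ {v₀} := by
    apply le_antisymm
    · intro v hv
      obtain ⟨c, hc⟩ := h3 v hv
      rw [Submodule.mem_sup]
      exact ⟨v - c • v₀, hc, c • v₀, Submodule.smul_mem _ _ (Submodule.mem_span_singleton_self _),
        sub_add_cancel _ _⟩
    · rw [sup_le_iff, Submodule.span_singleton_le_iff_mem]
      exact ⟨hUU, h1⟩
  subst e
  refine ⟨inferInstance, ?_⟩
  have h4 := Submodule.finrank_sup_add_finrank_inf_eq U (Submodule.span ℂ {v₀})
  have h5 : U ⊓ Submodule.span ℂ {v₀} = ⊥ := by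
    rw [Submodule.eq_bot_iff]
    intro x hx
    obtain ⟨hx1, hx2⟩ := Submodule.mem_inf.1 hx
    obtain ⟨c, rfl⟩ := Submodule.mem_span_singleton.1 hx2
    by_contra hne
    have hc : c ≠ 0 := by
      rintro rfl
      exact hne (zero_smul _ _)
    apply h2
    have := U.smul_mem c⁻¹ hx1
    rwa [smul_smul, inv_mul_cancel₀ hc, one_smul] at this
  have hv0 : v₀ ≠ 0 := by
    rintro rfl
    exact h2 U.zero_mem
  rw [h5, finrank_bot, finrank_span_singleton hv0] at h4
  omega

end Ad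

end Pool.Agent.Helper43.FV
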