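import Pool.Agent.Helper43.FV.Spec

/-! # Module EXT: finiteness by extension (group theory) -/

set_option autoImplicit false

namespace Pool.Agent.Helper43.FV

section EXT

variable {E : Type} [Group E]

/-- finitely many classes -/
def EXT_FC (A : Subgroup E) (S P : Set E) : Prop :=
  ∃ T : Finset E, (∀ b ∈ T, b ∈ S) ∧ ∀ s ∈ P, ∃ b ∈ T, ∃ x ∈ A, s = x * b * x⁻¹

theorem EXT_mono {A : Subgroup E} {S P Q : Set E} (h : P ⊆ Q) (hQ : EXT_FC A S Q) :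
    EXT_FC A S P := by
  obtain ⟨T, h1, h2⟩ := hQ
  exact ⟨T, h1, fun s hs => h2 s (h hs)⟩

theorem EXT_union {κ : Type*} [Finite κ] {A : Subgroup E} {S : Set E} (P : κ → Set E)
    (h : ∀ k, EXT_FC A S (P k)) : EXT_FC A S (⋃ k, P k) := by
  classical
  have := Fintype.ofFinite κ
  choose T h1 h2 using h
  refine ⟨Finset.univ.biUnion T, ?_, ?_⟩
  · intro b hb
    obtain ⟨k, _, hk⟩ := Finset.mem_biUnion.1 hb
    exact h1 k b hk
  · intro s hs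
    obtain ⟨k, hk⟩ := Set.mem_iUnion.1 hs
    obtain ⟨b, hb, x, hx, e⟩ := h2 k s hk
    exact ⟨b, Finset.mem_biUnion.2 ⟨k, Finset.mem_univ _, hb⟩, x, hx, e⟩

/-- if nonempty sets are finite up to classes as soon as one chooses a member -/
theorem EXT_choose {A : Subgroup E} {S P : Set E} (h : ∀ s ∈ P, EXT_FC A S P) : EXT_FC A S P := by
  by_cases hP : P.Nonempty
  · obtain ⟨s, hs⟩ := hP
    exact h s hs
  · refine ⟨∅, by simp, fun s hs => absurd ⟨s, hs⟩ hP⟩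

/-- one coset of `C` -/
theorem EXT_coset (A : Subgroup E) (S : Set E) (h1 : ∀ s ∈ S, s * s = 1)
    (s : E) (hs : s ∈ S) (C N : Subgroup E) (_hNC : N ≤ C) (hCA : C ≤ A)
    (c2 : ∀ c ∈ C, s * c * s⁻¹ ∈ C) (c3 : ∀ a ∈ N, s * a * s⁻¹ ∈ N)
    (c4 : ∀ c ∈ C, ∀ a ∈ N, c * a * c⁻¹ ∈ N)
    (c5 : ∀ c ∈ C, ∀ c' ∈ C, c * c' * c⁻¹ * c'⁻¹ ∈ N)
    (c6 : ∃ T : Finset E, ∀ c ∈ C, ∃ t ∈ T, ∃ d ∈ C, t⁻¹ * c * (d * d) ∈ N)
    (c7 : ∃ T : Finset E, ∀ c ∈ C, c * c ∈ N → ∃ t ∈ T, t⁻¹ * c ∈ N)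
    (c8 : ∀ s' ∈ S, s' * s⁻¹ ∈ C → ∃ T : Finset E, ∀ a ∈ N, a * s' * (a * s') = 1 →
        ∃ b ∈ T, b ∈ S ∧ ∃ x ∈ N, a * s' = x * b * x⁻¹) :
    EXT_FC A S {s' | s' ∈ S ∧ s' * s⁻¹ ∈ C} := by
  classical
  have hss : s⁻¹ = s := inv_eq_of_mul_eq_one_left (h1 s hs)
  obtain ⟨T6, hT6⟩ := c6
  obtain ⟨T7, hT7⟩ := c7
  -- congruence modulo `N`, as a normal subgroup of `C`
  let N' : Subgroup C := N.subgroupOf C
  have hN' : N'.Normal := by
    constructor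
    intro n hn g
    rw [Subgroup.mem_subgroupOf] at hn ⊢
    exact c4 g g.2 n hn
  let π : C →* C ⧸ N' := QuotientGroup.mk' N'
  have hπ : ∀ a b : C, π a = π b ↔ (a : E)⁻¹ * b ∈ N := by
    intro a b
    change (QuotientGroup.mk a : C ⧸ N') = QuotientGroup.mk b ↔ _
    rw [QuotientGroup.eq, Subgroup.mem_subgroupOf]
    rfl
  have hπ1 : ∀ a : C, π a = 1 ↔ (a : E) ∈ N := by
    intro a
    rw [show (1 : C ⧸ N') = π 1 by rw [map_one], eq_comm, hπ]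
    simp
  have hcomm : ∀ x y : C ⧸ N', x * y = y * x := by
    intro x y
    obtain ⟨a, rfl⟩ := QuotientGroup.mk'_surjective N' x
    obtain ⟨b, rfl⟩ := QuotientGroup.mk'_surjective N' y
    change π a * π b = π b * π a
    rw [← map_mul, ← map_mul, hπ]
    have h := c5 (b : E)⁻¹ (inv_mem b.2) (a : E)⁻¹ (inv_mem a.2)
    rw [inv_inv, inv_inv] at h
    have e : ((a * b : C) : E)⁻¹ * ((b * a : C) : E) = (b : E)⁻¹ * (a : E)⁻¹ * b * a := by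
      push_cast
      rw [mul_inv_rev]
      simp only [mul_assoc]
    rw [e]
    exact h
  -- the involution
  let τ : C →* C :=
    { toFun := fun c => ⟨s * c * s⁻¹, c2 c c.2⟩
      map_one' := by apply Subtype.ext; simp
      map_mul' := fun a b => by
        apply Subtype.ext
        change s * ((a : E) * b) * s⁻¹ = (s * a * s⁻¹) * (s * b * s⁻¹)
        group }
  have hτ : ∀ c : C, ((τ c : C) : E) = s * c * s⁻¹ := fun c => rfl
  have hττ : ∀ c : C, τ (τ c) = c := by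
    intro c
    apply Subtype.ext
    rw [hτ, hτ, hss]
    have := h1 s hs
    calc s * (s * c * s) * s = (s * s) * c * (s * s) := by group
      _ = c := by rw [this]; simp
  have hτN : ∀ c c' : C, π c = π c' → π (τ c) = π (τ c') := by
    intro c c' h
    rw [hπ] at h ⊢
    have := c3 _ h
    rw [hτ, hτ]
    have e : (s * (c : E) * s⁻¹)⁻¹ * (s * c' * s⁻¹) = s * ((c : E)⁻¹ * c') * s⁻¹ := by group
    rw [e]
    exact this
  -- the points `c` with `c s ∈ S`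
  have hZ : ∀ c : C, (c : E) * s ∈ S → c * τ c = 1 := by
    intro c hc
    apply Subtype.ext
    have := h1 _ hc
    change (c : E) * (s * c * s⁻¹) = 1
    rw [hss]
    calc (c : E) * (s * c * s) = (c * s) * (c * s) := by group
      _ = 1 := this
  -- first decomposition
  let P1 : T6 → Set E := fun t => {s' | s' ∈ S ∧ ∃ c : C, s' = c * s ∧
    ∃ d ∈ C, (t : E)⁻¹ * c * (d * d) ∈ N}
  have hsub1 : {s' | s' ∈ S ∧ s' * s⁻¹ ∈ C} ⊆ ⋃ t, P1 t := by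
    rintro s' ⟨hs', hc⟩
    obtain ⟨t, ht, d, hd, h⟩ := hT6 _ hc
    refine Set.mem_iUnion.2 ⟨⟨t, ht⟩, hs', ⟨s' * s⁻¹, hc⟩, ?_, d, hd, h⟩
    simp
  refine EXT_mono hsub1 (EXT_union P1 fun t => EXT_choose ?_)
  rintro s₁ ⟨hs₁, c₁, hc₁, d₁, hd₁, hN₁⟩
  have hz₁ := hZ c₁ (hc₁ ▸ hs₁)
  -- second decomposition
  let P2 : T7 → Set E := fun u => {s' | s' ∈ S ∧ ∃ c w v : C, s' = c * s ∧
    v = w * τ w ∧ π c = π c₁ * (π w * π w) ∧ (u : E)⁻¹ * v ∈ N}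
  have hsub2 : P1 t ⊆ ⋃ u, P2 u := by
    rintro s' ⟨hs', c, hc, d, hd, hN⟩
    have hz := hZ c (hc ▸ hs')
    let w : C := ⟨d₁, hd₁⟩ * (⟨d, hd⟩)⁻¹
    have hcc : π c = π c₁ * (π w * π w) := by
      have e1 : π c * (π ⟨d, hd⟩ * π ⟨d, hd⟩) = π c₁ * (π ⟨d₁, hd₁⟩ * π ⟨d₁, hd₁⟩) := by
        rw [← map_mul, ← map_mul, ← map_mul, ← map_mul, hπ]
        have h3 := N.mul_mem (N.inv_mem hN) hN₁
        have e : ((c * (⟨d, hd⟩ * ⟨d, hd⟩) : C) : E)⁻¹ * ((c₁ * (⟨d₁, hd₁⟩ * ⟨d₁, hd₁⟩) : C) : E) =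
            ((t : E)⁻¹ * c * (d * d))⁻¹ * ((t : E)⁻¹ * c₁ * (d₁ * d₁)) := by
          push_cast
          group
        rw [e]
        exact h3
      have e2 : π w = π ⟨d₁, hd₁⟩ * (π ⟨d, hd⟩)⁻¹ := by rw [← map_inv, ← map_mul]
      rw [e2]
      have e3 : π c = π c₁ * (π ⟨d₁, hd₁⟩ * π ⟨d₁, hd₁⟩) * (π ⟨d, hd⟩ * π ⟨d, hd⟩)⁻¹ := by
        rw [← e1, mul_inv_cancel_right]
      rw [e3, mul_inv_rev, mul_assoc]
      congr 1
      rw [mul_assoc, mul_assoc]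
      congr 1
      rw [← mul_assoc, hcomm (π ⟨d₁, hd₁⟩) (π ⟨d, hd⟩)⁻¹, mul_assoc]
      rw [hcomm (π ⟨d₁, hd₁⟩) (π ⟨d, hd⟩)⁻¹]
    -- `v = w τ(w)` has square in `N`
    have hτπ : ∀ x y : C, π x = π y → π (τ x) = π (τ y) := hτN
    have hv2 : ((w * τ w : C) : E) * ((w * τ w : C) : E) ∈ N := by
      have e1 : π (τ c) = π (τ c₁) * (π (τ w) * π (τ w)) := by
        have : π c = π (c₁ * (w * w)) := by rw [map_mul, map_mul]; exact hcc
        rw [hτπ _ _ this, map_mul, map_mul, map_mul, map_mul]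
      have e2 : π c * π (τ c) = 1 := by rw [← map_mul, hz, map_one]
      have e3 : π c₁ * π (τ c₁) = 1 := by rw [← map_mul, hz₁, map_one]
      have e4 : π (w * τ w * (w * τ w)) = 1 := by
        rw [map_mul, map_mul]
        rw [hcc, e1] at e2
        have e5 : π c₁ * (π w * π w) * (π (τ c₁) * (π (τ w) * π (τ w))) =
            (π c₁ * π (τ c₁)) * (π w * π (τ w) * (π w * π (τ w))) := by
          have a1 := hcomm (π w * π w) (π (τ c₁))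
          have a2 := hcomm (π w) (π (τ w))
          calc π c₁ * (π w * π w) * (π (τ c₁) * (π (τ w) * π (τ w)))
              = π c₁ * ((π w * π w) * π (τ c₁)) * (π (τ w) * π (τ w)) := by
                simp only [mul_assoc]
            _ = π c₁ * (π (τ c₁) * (π w * π w)) * (π (τ w) * π (τ w)) := by rw [a1]
            _ = (π c₁ * π (τ c₁)) * (π w * (π w * π (τ w)) * π (τ w)) := by
                simp only [mul_assoc]
            _ = (π c₁ * π (τ c₁)) * (π w * (π (τ w) * π w) * π (τ w)) := by rw [a2]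
            _ = _ := by simp only [mul_assoc]
        rw [e5, e3, one_mul] at e2
        exact e2
      rw [hπ1] at e4
      exact e4
    obtain ⟨u, hu, huN⟩ := hT7 _ (w * τ w).2 hv2
    exact Set.mem_iUnion.2 ⟨⟨u, hu⟩, hs', c, w, w * τ w, hc, rfl, hcc, huN⟩
  refine EXT_mono hsub2 (EXT_union P2 fun u => EXT_choose ?_)
  rintro s₂ ⟨hs₂, c₂, w₂, v₂, hc₂, hv₂, hcc₂, hu₂⟩
  -- all the elements of `P2 u` are conjugate to elements of `N s₂`
  have hs₂C : s₂ * s⁻¹ ∈ C := by rw [hc₂]; simp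
  obtain ⟨T8, hT8⟩ := c8 s₂ hs₂ hs₂C
  refine ⟨T8.filter (· ∈ S), fun b hb => (Finset.mem_filter.1 hb).2, ?_⟩
  rintro s' ⟨hs', c, w, v, hc, hv, hcc, hu⟩
  -- `π c = π (x c₂ τ(x)⁻¹)` with `x = w w₂⁻¹`
  let x : C := w * w₂⁻¹
  have hvv : π v = π v₂ := by
    rw [hπ]
    have h3 := N.mul_mem (N.inv_mem hu) hu₂
    have e : ((u : E)⁻¹ * v)⁻¹ * ((u : E)⁻¹ * v₂) = (v : E)⁻¹ * v₂ := by group
    rwa [e] at h3
  have hx : π c = π (x * c₂ * (τ x)⁻¹) := by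
    have e1 : π w * π (τ w) = π w₂ * π (τ w₂) := by
      rw [← map_mul, ← map_mul, ← hv, ← hv₂, hvv]
    have e2 : π x = π w * (π w₂)⁻¹ := by rw [← map_inv, ← map_mul]
    have e3 : π (τ x) = π (τ w) * (π (τ w₂))⁻¹ := by
      change π (τ (w * w₂⁻¹)) = _
      rw [map_mul, map_inv, map_mul, map_inv]
    -- `w = w₂ τ(w₂) τ(w)⁻¹`
    have e4 : π (τ w) = (π w)⁻¹ * (π w₂ * π (τ w₂)) := by rw [← e1, inv_mul_cancel_left]
    have e5 : (π (τ x))⁻¹ = (π w₂)⁻¹ * π w := by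
      rw [e3, e4, mul_inv_rev, inv_inv, mul_inv_rev, inv_inv, mul_inv_rev]
      rw [mul_assoc, ← mul_assoc (π (τ w₂)), mul_inv_cancel, one_mul]
    rw [map_mul, map_mul, map_inv, e5, e2, hcc, hcc₂]
    -- everything commutes
    have b1 := hcomm (π w₂)⁻¹ (π c₁)
    calc π c₁ * (π w * π w) = (π w * π w) * π c₁ := hcomm _ _
      _ = π w * (π c₁ * π w) := by rw [mul_assoc, hcomm (π w) (π c₁)]
      _ = π w * ((π w₂)⁻¹ * (π c₁ * (π w₂ * π w₂)) * (π w₂)⁻¹ * π w) := by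
          congr 2
          rw [← mul_assoc (π w₂)⁻¹, b1, mul_assoc (π c₁), inv_mul_cancel_left, mul_assoc,
            mul_inv_cancel, mul_one]
      _ = π w * (π w₂)⁻¹ * (π c₁ * (π w₂ * π w₂)) * ((π w₂)⁻¹ * π w) := by
          simp only [mul_assoc]
  rw [hπ] at hx
  -- `n = (x c₂ τ(x)⁻¹)⁻¹ c`
  obtain ⟨n, hn⟩ : ∃ n : E, n = ((x * c₂ * (τ x)⁻¹ : C) : E)⁻¹ * (c : E) := ⟨_, rfl⟩
  have hnN : n ∈ N := by
    have := N.inv_mem hx
    rw [hn]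
    rwa [mul_inv_rev, inv_inv] at this
  have hcn : (c : E) = x * c₂ * (s * x * s⁻¹)⁻¹ * n := by
    rw [hn]
    push_cast
    rw [hτ]
    group
  -- conjugate by `x`
  have hx2 : (x : E)⁻¹ * s' * x = ((c₂ : E) * (s * ((x : E)⁻¹ * (s * n * s⁻¹) * x) * s⁻¹) *
      (c₂ : E)⁻¹) * s₂ := by
    rw [hc, hc₂, hcn, hss]
    have h2 := h1 s hs
    have h2' : s⁻¹ = s := hss
    simp only [mul_inv_rev, hss, mul_assoc, inv_mul_cancel_left]
    rw [h2, mul_one]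
  have hmem : ((c₂ : E) * (s * ((x : E)⁻¹ * (s * n * s⁻¹) * x) * s⁻¹) * (c₂ : E)⁻¹) ∈ N := by
    refine c4 _ c₂.2 _ (c3 _ ?_)
    have := c4 (x : E)⁻¹ (C.inv_mem x.2) _ (c3 n hnN)
    rwa [inv_inv] at this
  have hinv : ((c₂ : E) * (s * ((x : E)⁻¹ * (s * n * s⁻¹) * x) * s⁻¹) * (c₂ : E)⁻¹) * s₂ *
      (((c₂ : E) * (s * ((x : E)⁻¹ * (s * n * s⁻¹) * x) * s⁻¹) * (c₂ : E)⁻¹) * s₂) = 1 := by
    rw [← hx2]
    have h2 := h1 s' hs'
    calc (x : E)⁻¹ * s' * x * ((x : E)⁻¹ * s' * x) = (x : E)⁻¹ * (s' * s') * x := by group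
      _ = 1 := by rw [h2]; simp
  obtain ⟨b, hb, hbS, y, hy, hby⟩ := hT8 _ hmem hinv
  refine ⟨b, Finset.mem_filter.2 ⟨hb, hbS⟩, x * y, ?_, ?_⟩
  · exact A.mul_mem (hCA x.2) (hCA (_hNC hy))
  · rw [← hx2] at hby
    have : s' = (x : E) * ((x : E)⁻¹ * s' * x) * (x : E)⁻¹ := by group
    rw [this, hby]
    group

theorem st_EXT : ST_EXT := by
  classical
  intro E _ A A' S hAA hfin h1 _ h3 h4 h5
  by_cases hS : S.Nonempty
  swap
  · exact ⟨∅, by simp, fun s hs => absurd ⟨s, hs⟩ hS⟩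
  obtain ⟨s₀, hs₀⟩ := hS
  have hfi : (A'.subgroupOf A).FiniteIndex := ⟨hfin⟩
  have hfinite : Finite (A ⧸ A'.subgroupOf A) := Subgroup.finite_quotient_of_finiteIndex
  let q : ∀ s ∈ S, A ⧸ A'.subgroupOf A := fun s hs =>
    QuotientGroup.mk ⟨(s * s₀⁻¹)⁻¹, A.inv_mem (h3 s hs s₀ hs₀)⟩
  let P : A ⧸ A'.subgroupOf A → Set E := fun k => {s | ∃ hs : s ∈ S, q s hs = k}
  have hsub : S ⊆ ⋃ k, P k := fun s hs => Set.mem_iUnion.2 ⟨q s hs, hs, rfl⟩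
  have key : EXT_FC A S S := by
    refine EXT_mono hsub (EXT_union P fun k => EXT_choose ?_)
    rintro s ⟨hs, hk⟩
    obtain ⟨C, N, hNC, hCA, c1, c2, c3, c4, c5, c6, c7, c8⟩ := h5 s hs
    refine EXT_mono ?_ (EXT_coset A S h1 s hs C N hNC hCA c2 c3 c4 c5 c6 c7 c8)
    rintro s' ⟨hs', hk'⟩
    refine ⟨hs', ?_⟩
    -- `s' s⁻¹ ∈ A'`
    have e : q s' hs' = q s hs := by rw [hk, hk']
    have e2 := QuotientGroup.eq.1 e
    rw [Subgroup.mem_subgroupOf] at e2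
    have e3 : s' * s⁻¹ ∈ A' := by
      have : ((s' * s₀⁻¹)⁻¹)⁻¹ * (s * s₀⁻¹)⁻¹ = s' * s⁻¹ := by group
      rw [← this]
      exact e2
    refine c1 _ e3 ?_
    have i1 : s⁻¹ = s := inv_eq_of_mul_eq_one_left (h1 s hs)
    have i2 : s'⁻¹ = s' := inv_eq_of_mul_eq_one_left (h1 s' hs')
    have e4 : s * (s' * s⁻¹) * s⁻¹ = (s' * s⁻¹)⁻¹ := by
      have h2 := h1 s hs
      rw [mul_inv_rev, inv_inv, i2, i1]
      calc s * (s' * s) * s = s * s' * (s * s) := by group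
        _ = s * s' := by rw [h2, mul_one]
    rw [e4]
    exact A'.inv_mem e3
  exact key

end EXT

end Pool.Agent.Helper43.FV
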