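import Pool.Agent.Helper78.FV.Ad

/-!
# RR: the Riemann-Roch theorem
-/

namespace Pool.Agent.Helper43.FV

section RR

variable {F : Type} [Field F] [Algebra ℂ F]

/-- multiplication by a function on adeles -/
def RR_mul (hD : ST_DEG) (hF : FF F) (f : F) : adele F →ₗ[ℂ] adele F where
  toFun α := ⟨fun w => f * (α : Pl F → F) w, by
    by_cases hf : f = 0
    · subst hf
      apply Set.Finite.subset Set.finite_empty
      rintro w ⟨h, -⟩
      exact h (zero_mul _)
    apply Set.Finite.subset ((Ad_const_mem hD hF f).union α.2)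
    rintro w ⟨h1, h2⟩
    have h3 : (α : Pl F → F) w ≠ 0 := right_ne_zero_of_mul h1
    change w.1 (f * (α : Pl F → F) w) < 0 at h2
    rw [w.2.mul _ _ hf h3] at h2
    by_cases h4 : w.1 f < 0
    · exact Or.inl ⟨hf, h4⟩
    · exact Or.inr ⟨h3, by omega⟩⟩
  map_add' α β := by
    apply Subtype.ext
    funext w
    exact mul_add _ _ _
  map_smul' c α := by
    apply Subtype.ext
    funext w
    exact mul_smul_comm _ _ _

theorem RR_mul_apply (hD : ST_DEG) (hF : FF F) (f : F) (α : adele F) (w : Pl F) :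
    ((RR_mul hD hF f α : adele F) : Pl F → F) w = f * (α : Pl F → F) w := rfl

theorem RR_mul_mul (hD : ST_DEG) (hF : FF F) (f g : F) (α : adele F) :
    RR_mul hD hF f (RR_mul hD hF g α) = RR_mul hD hF (f * g) α := by
  apply Subtype.ext
  funext w
  exact (mul_assoc _ _ _).symm

theorem RR_mul_one (hD : ST_DEG) (hF : FF F) (α : adele F) : RR_mul hD hF 1 α = α := by
  apply Subtype.ext
  funext w
  exact one_mul _

theorem RR_mul_cst (hD : ST_DEG) (hF : FF F) (f g : F) :
    RR_mul hD hF f (Ad_cst hD hF g) = Ad_cst hD hF (f * g) := rfl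

/-- the action of functions on functionals -/
def RR_act (hD : ST_DEG) (hF : FF F) (ω : Module.Dual ℂ (adele F)) :
    F →ₗ[ℂ] Module.Dual ℂ (adele F) where
  toFun f := ω.comp (RR_mul hD hF f)
  map_add' f g := by
    apply LinearMap.ext
    intro α
    have e : RR_mul hD hF (f + g) α = RR_mul hD hF f α + RR_mul hD hF g α := by
      apply Subtype.ext
      funext w
      exact add_mul _ _ _
    rw [LinearMap.comp_apply, e, map_add]
    rfl
  map_smul' c f := by
    apply LinearMap.ext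
    intro α
    have e : RR_mul hD hF (c • f) α = c • RR_mul hD hF f α := by
      apply Subtype.ext
      funext w
      exact smul_mul_assoc _ _ _
    rw [LinearMap.comp_apply, e, map_smul]
    rfl

theorem RR_act_apply (hD : ST_DEG) (hF : FF F) (ω : Module.Dual ℂ (adele F)) (f : F)
    (α : adele F) : RR_act hD hF ω f α = ω (RR_mul hD hF f α) := rfl

theorem RR_act_act (hD : ST_DEG) (hF : FF F) (ω : Module.Dual ℂ (adele F)) (f g : F) :
    RR_act hD hF (RR_act hD hF ω f) g = RR_act hD hF ω (f * g) := by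
  apply LinearMap.ext
  intro α
  rw [RR_act_apply, RR_act_apply, RR_act_apply, RR_mul_mul]

theorem RR_act_one (hD : ST_DEG) (hF : FF F) (ω : Module.Dual ℂ (adele F)) :
    RR_act hD hF ω 1 = ω := by
  apply LinearMap.ext
  intro α
  rw [RR_act_apply, RR_mul_one]

theorem RR_act_ne (hD : ST_DEG) (hF : FF F) {ω : Module.Dual ℂ (adele F)} (hω : ω ≠ 0) {f : F}
    (hf : RR_act hD hF ω f = 0) : f = 0 := by
  by_contra h
  apply hω
  rw [← RR_act_one hD hF ω, ← mul_inv_cancel₀ h, ← RR_act_act, hf]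
  rfl

/-- `L(D - E)` maps `weil D` to `weil E` -/
theorem RR_act_mem (hD : ST_DEG) (hF : FF F) {ω : Module.Dual ℂ (adele F)} {D E : Dv F}
    (hω : ω ∈ weil D) {f : F} (hf : f ∈ LL (D - E)) : RR_act hD hF ω f ∈ weil E := by
  rw [Ad_mem_weil hD hF] at hω ⊢
  constructor
  · intro α hα
    rw [RR_act_apply]
    apply hω.1
    intro w hw
    rw [RR_mul_apply] at hw ⊢
    have h1 := left_ne_zero_of_mul hw
    have h2 := right_ne_zero_of_mul hw
    rw [w.2.mul _ _ h1 h2]
    have h3 := hf h1 w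
    have h4 := hα w h2
    rw [Finsupp.sub_apply] at h3
    omega
  · intro g
    rw [RR_act_apply, RR_mul_cst, hω.2]

/-- two differentials are dependent -/
theorem RR_dep (hRIE : ST_RIE) (hD : ST_DEG) (hF : FF F) {g : ℤ}
    (hg : ∀ D : Dv F, Module.Finite ℂ (weil D) ∧
      (Module.finrank ℂ (weil D) : ℤ) = ll D - dg D - 1 + g)
    {D₁ D₂ : Dv F} {ω₁ ω₂ : Module.Dual ℂ (adele F)} (h1 : ω₁ ∈ weil D₁) (h2 : ω₂ ∈ weil D₂) :
    ∃ f₁ f₂ : F, (f₁ ≠ 0 ∨ f₂ ≠ 0) ∧ RR_act hD hF ω₁ f₁ + RR_act hD hF ω₂ f₂ = 0 := by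
  by_contra hcon
  push Not at hcon
  obtain ⟨hfin, -⟩ := hRIE F hF
  obtain ⟨w⟩ := Ad_place hD hF
  -- a divisor of large degree
  obtain ⟨n, hn⟩ : ∃ n : ℤ, n = max 1 (3 * g - dg D₁ - dg D₂) := ⟨_, rfl⟩
  have hn1 : 1 ≤ n := by rw [hn]; exact le_max_left _ _
  have hn2 : 3 * g - dg D₁ - dg D₂ ≤ n := by rw [hn]; exact le_max_right _ _
  set B : Dv F := Finsupp.single w n with hB
  have hdB : dg B = n := Ad_dg_single _ _
  have m1 : ∀ f : LL (D₁ + B), RR_act hD hF ω₁ f ∈ weil (-B) := fun f =>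
    RR_act_mem hD hF h1 (by rw [sub_neg_eq_add]; exact f.2)
  have m2 : ∀ f : LL (D₂ + B), RR_act hD hF ω₂ f ∈ weil (-B) := fun f =>
    RR_act_mem hD hF h2 (by rw [sub_neg_eq_add]; exact f.2)
  let φ : (LL (D₁ + B) × LL (D₂ + B)) →ₗ[ℂ] weil (-B) :=
    LinearMap.coprod
      (((RR_act hD hF ω₁).comp (LL (D₁ + B)).subtype).codRestrict _ m1)
      (((RR_act hD hF ω₂).comp (LL (D₂ + B)).subtype).codRestrict _ m2)
  have hφ : Function.Injective φ := by
    rw [injective_iff_map_eq_zero]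
    rintro ⟨f₁, f₂⟩ h
    have h' : RR_act hD hF ω₁ (f₁ : F) + RR_act hD hF ω₂ (f₂ : F) = 0 :=
      congrArg Subtype.val h
    by_contra hne
    have h3 : ((f₁ : F) ≠ 0 ∨ (f₂ : F) ≠ 0) := by
      by_contra h4
      push Not at h4
      apply hne
      rw [Prod.mk_eq_zero]
      exact ⟨Subtype.ext h4.1, Subtype.ext h4.2⟩
    exact hcon _ _ h3 h'
  obtain ⟨hw1, hw2⟩ := hg (-B)
  have hf1 := hfin (D₁ + B)
  have hf2 := hfin (D₂ + B)
  have h5 := LinearMap.finrank_le_finrank_of_injective hφ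
  rw [Module.finrank_prod] at h5
  have h6 : ll (-B) = 0 := Ad_LL_neg hD hF (by rw [Ad_dg_neg]; omega)
  rw [h6, Ad_dg_neg] at hw2
  have e1 := (hg (D₁ + B)).2
  have e2 := (hg (D₂ + B)).2
  rw [Ad_dg_add] at e1 e2
  have e3 : (0 : ℤ) ≤ (Module.finrank ℂ (weil (D₁ + B)) : ℤ) := Int.natCast_nonneg _
  have e4 : (0 : ℤ) ≤ (Module.finrank ℂ (weil (D₂ + B)) : ℤ) := Int.natCast_nonneg _
  have e5 : ll (D₁ + B) + ll (D₂ + B) ≤ (Module.finrank ℂ (weil (-B)) : ℤ) := by
    unfold ll
    exact_mod_cast h5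
  omega

/-- divisors of a differential are closed under suprema -/
theorem RR_sup (hD : ST_DEG) (hF : FF F) {D D' : Dv F} {ω : Module.Dual ℂ (adele F)}
    (h1 : ω ∈ weil D) (h2 : ω ∈ weil D') : ω ∈ weil (D ⊔ D') := by
  classical
  rw [Ad_mem_weil hD hF] at h1 h2 ⊢
  refine ⟨fun α hα => ?_, h1.2⟩
  have ha : (fun w : Pl F => if D' w ≤ D w then (α : Pl F → F) w else 0) ∈ adele F := by
    apply Set.Finite.subset α.2
    rintro w ⟨h3, h4⟩
    by_cases h : D' w ≤ D w
    · change (if D' w ≤ D w then (α : Pl F → F) w else 0) ≠ 0 at h3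
      change w.1 (if D' w ≤ D w then (α : Pl F → F) w else 0) < 0 at h4
      rw [if_pos h] at h3 h4
      exact ⟨h3, h4⟩
    · exact absurd (if_neg h) h3
  have hb : (fun w : Pl F => if D' w ≤ D w then 0 else (α : Pl F → F) w) ∈ adele F := by
    apply Set.Finite.subset α.2
    rintro w ⟨h3, h4⟩
    by_cases h : D' w ≤ D w
    · exact absurd (if_pos h) h3
    · change (if D' w ≤ D w then 0 else (α : Pl F → F) w) ≠ 0 at h3
      change w.1 (if D' w ≤ D w then 0 else (α : Pl F → F) w) < 0 at h4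
      rw [if_neg h] at h3 h4
      exact ⟨h3, h4⟩
  have hsum : α = (⟨_, ha⟩ : adele F) + ⟨_, hb⟩ := by
    apply Subtype.ext
    funext w
    change (α : Pl F → F) w = (if D' w ≤ D w then (α : Pl F → F) w else 0) +
      (if D' w ≤ D w then 0 else (α : Pl F → F) w)
    split_ifs <;> simp
  rw [hsum, map_add, h1.1, h2.1, add_zero]
  · intro w hw
    change (if D' w ≤ D w then 0 else (α : Pl F → F) w) ≠ 0 at hw
    change 0 ≤ w.1 (if D' w ≤ D w then 0 else (α : Pl F → F) w) + D' w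
    by_cases h : D' w ≤ D w
    · exact absurd (if_pos h) hw
    · rw [if_neg h] at hw ⊢
      have h3 := hα w hw
      rw [Finsupp.sup_apply, sup_eq_right.2 (by omega : D w ≤ D' w)] at h3
      exact h3
  · intro w hw
    change (if D' w ≤ D w then (α : Pl F → F) w else 0) ≠ 0 at hw
    change 0 ≤ w.1 (if D' w ≤ D w then (α : Pl F → F) w else 0) + D w
    by_cases h : D' w ≤ D w
    · rw [if_pos h] at hw ⊢
      have h3 := hα w hw
      rw [Finsupp.sup_apply, sup_eq_left.2 h] at h3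
      exact h3
    · exact absurd (if_neg h) hw

end RR

theorem st_RR (hW : ST_WEIL) (hRIE : ST_RIE) (hD : ST_DEG) : ST_RR := by
  classical
  intro F _ _ hF
  obtain ⟨g, hg⟩ := hW F hF
  obtain ⟨hfin, -⟩ := hRIE F hF
  obtain ⟨w⟩ := Ad_place hD hF
  -- a nonzero differential
  obtain ⟨D₀, ω, hω, hω0⟩ : ∃ (D₀ : Dv F) (ω : Module.Dual ℂ (adele F)), ω ∈ weil D₀ ∧ ω ≠ 0 := by
    obtain ⟨n, hn⟩ : ∃ n : ℤ, n = max 1 (2 - g) := ⟨_, rfl⟩
    have hn1 : 1 ≤ n := by rw [hn]; exact le_max_left _ _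
    have hn2 : 2 - g ≤ n := by rw [hn]; exact le_max_right _ _
    refine ⟨-Finsupp.single w n, ?_⟩
    have h1 := (hg (-Finsupp.single w n)).2
    have h2 : dg (-Finsupp.single w n : Dv F) = -n := by rw [Ad_dg_neg, Ad_dg_single]
    rw [Ad_LL_neg hD hF (by rw [h2]; omega), h2] at h1
    have h3 : weil (-Finsupp.single w n : Dv F) ≠ ⊥ := by
      intro h
      rw [h, finrank_bot] at h1
      push_cast at h1
      omega
    obtain ⟨ω, hω, hω0⟩ := Submodule.exists_mem_ne_zero_of_ne_bot h3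
    exact ⟨ω, hω, hω0⟩
  -- degrees are bounded
  have hbd : ∀ D : Dv F, ω ∈ weil D → dg D ≤ ll (0 : Dv F) - 2 + 2 * g := by
    intro D hDω
    have m : ∀ f : LL D, RR_act hD hF ω f ∈ weil (0 : Dv F) := fun f =>
      RR_act_mem hD hF hDω (by rw [sub_zero]; exact f.2)
    let φ : LL D →ₗ[ℂ] weil (0 : Dv F) :=
      ((RR_act hD hF ω).comp (LL D).subtype).codRestrict _ m
    have hφ : Function.Injective φ := by
      rw [injective_iff_map_eq_zero]
      intro f h
      have h' : RR_act hD hF ω (f : F) = 0 := congrArg Subtype.val h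
      exact Subtype.ext (RR_act_ne hD hF hω0 h')
    obtain ⟨hw1, hw2⟩ := hg (0 : Dv F)
    have h5 := LinearMap.finrank_le_finrank_of_injective hφ
    have e1 := (hg D).2
    have e3 : (0 : ℤ) ≤ (Module.finrank ℂ (weil D) : ℤ) := Int.natCast_nonneg _
    rw [Ad_dg_zero] at hw2
    have e5 : ll D ≤ (Module.finrank ℂ (weil (0 : Dv F)) : ℤ) := by
      unfold ll
      exact_mod_cast h5
    omega
  -- the greatest divisor
  obtain ⟨W, hWω, hWmax⟩ : ∃ W : Dv F, ω ∈ weil W ∧ ∀ D : Dv F, ω ∈ weil D → dg D ≤ dg W := by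
    have key : ∀ n : ℕ, ∀ D : Dv F, ω ∈ weil D → ll (0 : Dv F) - 2 + 2 * g - dg D ≤ n →
        ∃ W : Dv F, ω ∈ weil W ∧ ∀ D : Dv F, ω ∈ weil D → dg D ≤ dg W := by
      intro n
      induction n with
      | zero =>
        intro D hDω hle
        refine ⟨D, hDω, fun D' hD' => ?_⟩
        have := hbd D' hD'
        push_cast at hle
        omega
      | succ n ih =>
        intro D hDω hle
        by_cases h : ∀ D' : Dv F, ω ∈ weil D' → dg D' ≤ dg D
        · exact ⟨D, hDω, h⟩
        · push Not at h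
          obtain ⟨D', hD', hlt⟩ := h
          exact ih D' hD' (by push_cast at hle; omega)
    exact key (ll (0 : Dv F) - 2 + 2 * g - dg D₀).toNat D₀ hω (by
      have := hbd D₀ hω
      omega)
  have hgreat : ∀ D : Dv F, ω ∈ weil D → D ≤ W := by
    intro D hDω
    have h1 := hWmax _ (RR_sup hD hF hWω hDω)
    intro v
    by_contra hcon
    have h2 : W + Finsupp.single v 1 ≤ W ⊔ D := by
      intro u
      rw [Finsupp.sup_apply, Finsupp.add_apply, Finsupp.single_apply]
      split_ifs with h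
      · subst h
        rw [sup_eq_right.2 (by omega)]
        omega
      · rw [add_zero]
        exact le_sup_left
    have h3 := Ad_dg_mono h2
    rw [Ad_dg_add, Ad_dg_single] at h3
    omega
  refine ⟨g, W, fun D => ?_⟩
  -- the isomorphism
  have m : ∀ f : LL (W - D), RR_act hD hF ω f ∈ weil D := fun f => RR_act_mem hD hF hWω f.2
  let φ : LL (W - D) →ₗ[ℂ] weil D :=
    ((RR_act hD hF ω).comp (LL (W - D)).subtype).codRestrict _ m
  have hφ : Function.Injective φ := by
    rw [injective_iff_map_eq_zero]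
    intro f h
    have h' : RR_act hD hF ω (f : F) = 0 := congrArg Subtype.val h
    exact Subtype.ext (RR_act_ne hD hF hω0 h')
  have hφ' : Function.Surjective φ := by
    rintro ⟨η, hη⟩
    by_cases hη0 : η = 0
    · exact ⟨0, by rw [map_zero]; exact Subtype.ext hη0.symm⟩
    obtain ⟨f₁, f₂, hne, hsum⟩ := RR_dep hRIE hD hF hg hWω hη
    have hf2 : f₂ ≠ 0 := by
      rintro rfl
      rw [map_zero, add_zero] at hsum
      have := RR_act_ne hD hF hω0 hsum
      subst this
      simp at hne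
    have hf1 : f₁ ≠ 0 := by
      rintro rfl
      rw [map_zero, zero_add] at hsum
      exact hf2 (RR_act_ne hD hF hη0 hsum)
    -- `η = h ω`
    obtain ⟨h, hh⟩ : ∃ h : F, h = -f₁ * f₂⁻¹ := ⟨_, rfl⟩
    have hh0 : h ≠ 0 := by
      rw [hh]
      exact mul_ne_zero (neg_ne_zero.2 hf1) (inv_ne_zero hf2)
    have hηh : RR_act hD hF ω h = η := by
      have h1 : RR_act hD hF ω (-f₁) = RR_act hD hF η f₂ := by
        rw [map_neg]
        exact neg_eq_of_add_eq_zero_right hsum
      rw [hh, ← RR_act_act, h1, RR_act_act, mul_inv_cancel₀ hf2, RR_act_one]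
    have hωη : RR_act hD hF η h⁻¹ = ω := by
      rw [← hηh, RR_act_act, mul_inv_cancel₀ hh0, RR_act_one]
    obtain ⟨E, hE, -, -⟩ := hD F hF h hh0
    have h2 : ω ∈ weil (D - E) := by
      rw [← hωη]
      apply RR_act_mem hD hF hη
      intro h3 v
      rw [Ad_inv v hh0, ← hE v]
      have : (D - (D - E)) v = E v := by
        rw [sub_sub_cancel]
      omega
    have h3 := hgreat _ h2
    have h4 : h ∈ LL (W - D) := by
      intro _ v
      have := h3 v
      rw [Finsupp.sub_apply, hE v] at this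
      rw [Finsupp.sub_apply]
      omega
    exact ⟨⟨h, h4⟩, Subtype.ext hηh⟩
  have h1 := (LinearEquiv.ofBijective φ ⟨hφ, hφ'⟩).finrank_eq
  have h2 := (hg D).2
  rw [← h1] at h2
  change ll (W - D) = ll D - dg D - 1 + g at h2
  omega

end Pool.Agent.Helper43.FV
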