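import Pool.Agent.Helper78.FV.Ad

/-!
# WEIL: the space of Weil differentials has dimension `ll D - dg D - 1 + g`
-/

namespace Pool.Agent.Helper43.FV

section WEIL

variable {F : Type} [Field F] [Algebra ℂ F]

/-- If `L(D+w)` is larger than `L(D)` then `A(D+w)` is contained in `A(D) + F`. -/
theorem WEIL_step (hR : ST_RES) (hD : ST_DEG) (hF : FF F) (D : Dv F) (w : Pl F)
    {f : F} (h1 : f ∈ LL (D + Finsupp.single w 1)) (h2 : f ∉ LL D) {α : adele F}
    (h3 : α ∈ Ad (D + Finsupp.single w 1)) : ∃ c : ℂ, α - Ad_cst hD hF (c • f) ∈ Ad D := by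
  obtain ⟨c, hc⟩ := Ad_step hR hF D w ((Ad_cst_mem hD hF).2 h1)
    (fun h => h2 ((Ad_cst_mem hD hF).1 h)) h3
  exact ⟨c, by rwa [map_smul]⟩

theorem WEIL_ll_step (hR : ST_RES) (hD : ST_DEG) (hF : FF F) (D : Dv F) (w : Pl F)
    (hfin : Module.Finite ℂ (LL D))
    {f : F} (h1 : f ∈ LL (D + Finsupp.single w 1)) (h2 : f ∉ LL D) :
    ll (D + Finsupp.single w 1) = ll D + 1 := by
  have h := (Ad_finrank (LL D) (LL (D + Finsupp.single w 1)) ?_ f h1 h2 ?_).2
  · rw [ll, ll, h]
    push_cast
    rfl
  · intro g hg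
    rw [← Ad_cst_mem hD hF] at hg ⊢
    refine Ad_mono ?_ hg
    intro v
    have : 0 ≤ (Finsupp.single w (1 : ℤ)) v := by
      classical
      rw [Finsupp.single_apply]
      split_ifs <;> omega
    rw [Finsupp.add_apply]
    omega
  · intro g hg
    obtain ⟨c, hc⟩ := WEIL_step hR hD hF D w h1 h2 ((Ad_cst_mem hD hF).2 hg)
    refine ⟨c, ?_⟩
    rwa [← map_sub, Ad_cst_mem] at hc

theorem WEIL_le_single (D : Dv F) (w : Pl F) : D ≤ D + Finsupp.single w 1 := by
  intro v
  have : 0 ≤ (Finsupp.single w (1 : ℤ)) v := by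
    classical
    rw [Finsupp.single_apply]
    split_ifs <;> omega
  rw [Finsupp.add_apply]
  omega

/-- all adeles for large degree -/
theorem WEIL_large (hR : ST_RES) (hD : ST_DEG) (hF : FF F)
    (hfin : ∀ D : Dv F, Module.Finite ℂ (LL D)) {g c : ℤ}
    (hc : ∀ D : Dv F, c ≤ dg D → ll D = dg D + 1 - g) {D : Dv F} (hcD : c ≤ dg D)
    (α : adele F) : ∃ f : F, α - Ad_cst hD hF f ∈ Ad D := by
  obtain ⟨D', hDD', hα⟩ := Ad_exists_div D α
  obtain ⟨n, hn⟩ : ∃ n : ℕ, dg D' - dg D = n :=
    ⟨(dg D' - dg D).toNat, by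
      have := Ad_dg_mono hDD'
      omega⟩
  induction n generalizing D' α with
  | zero =>
    have h0 : D' = D := by
      by_contra hne
      have : ∃ w, D w ≠ D' w := by
        by_contra hcon
        push Not at hcon
        exact hne (Finsupp.ext fun w => (hcon w).symm)
      obtain ⟨w, hw⟩ := this
      have h1 : D + Finsupp.single w 1 ≤ D' := by
        classical
        intro v
        have h2 := hDD' v
        rw [Finsupp.add_apply, Finsupp.single_apply]
        split_ifs with h
        · subst h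
          omega
        · omega
      have h2 := Ad_dg_mono h1
      rw [Ad_dg_add, Ad_dg_single] at h2
      omega
    subst h0
    exact ⟨0, by rwa [map_zero, sub_zero]⟩
  | succ n ih =>
    have : ∃ w, D w ≠ D' w := by
      by_contra hcon
      push Not at hcon
      have : D = D' := Finsupp.ext hcon
      subst this
      push_cast at hn
      omega
    obtain ⟨w, hw⟩ := this
    set E : Dv F := D' - Finsupp.single w 1 with hE
    have hE' : D' = E + Finsupp.single w 1 := by rw [hE, sub_add_cancel]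
    have hDE : D ≤ E := by
      classical
      intro v
      have h2 := hDD' v
      rw [hE, Finsupp.sub_apply, Finsupp.single_apply]
      split_ifs with h
      · subst h
        omega
      · omega
    have hdE : dg D' = dg E + 1 := by rw [hE', Ad_dg_add, Ad_dg_single]
    have hDE' := Ad_dg_mono hDE
    have h1 : ll D' = ll E + 1 := by
      rw [hc D' (by omega), hc E (by omega)]
      omega
    -- a new function
    have h2 : ∃ f ∈ LL D', f ∉ LL E := by
      by_contra hcon
      push Not at hcon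
      have h3 : LL D' ≤ LL E := hcon
      have h4 : Module.finrank ℂ (LL D') ≤ Module.finrank ℂ (LL E) :=
        have := hfin E
        Submodule.finrank_mono h3
      unfold ll at h1
      omega
    obtain ⟨f, hf1, hf2⟩ := h2
    rw [hE'] at hf1 hα
    obtain ⟨c', hc'⟩ := WEIL_step hR hD hF E w hf1 hf2 hα
    obtain ⟨f', hf'⟩ := ih _ E hDE hc' (by push_cast at hn; omega)
    refine ⟨c' • f + f', ?_⟩
    rw [map_add, ← sub_sub]
    exact hf'

end WEIL

theorem st_WEIL (hRIE : ST_RIE) (hR : ST_RES) (hD : ST_DEG) : ST_WEIL := by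
  classical
  intro F _ _ hF
  obtain ⟨hfin, g, c, -, hc⟩ := hRIE F hF
  refine ⟨g, ?_⟩
  -- large degree
  have hbase : ∀ D : Dv F, c ≤ dg D → Module.Finite ℂ (weil D) ∧
      (Module.finrank ℂ (weil D) : ℤ) = ll D - dg D - 1 + g := by
    intro D hcD
    have h0 : weil D = ⊥ := by
      rw [Submodule.eq_bot_iff]
      intro ω hω
      obtain ⟨h1, h2⟩ := (Ad_mem_weil hD hF).1 hω
      ext α
      obtain ⟨f, hf⟩ := WEIL_large hR hD hF hfin hc hcD α
      have h3 := h1 _ hf
      rw [map_sub, h2, sub_zero] at h3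
      exact h3
    rw [h0]
    refine ⟨inferInstance, ?_⟩
    rw [finrank_bot, hc D hcD]
    push_cast
    ring
  -- the step
  have hstep : ∀ (D : Dv F) (w : Pl F), (Module.Finite ℂ (weil (D + Finsupp.single w 1)) ∧
      (Module.finrank ℂ (weil (D + Finsupp.single w 1)) : ℤ)
        = ll (D + Finsupp.single w 1) - dg (D + Finsupp.single w 1) - 1 + g) →
      (Module.Finite ℂ (weil D) ∧
      (Module.finrank ℂ (weil D) : ℤ) = ll D - dg D - 1 + g) := by
    intro D w ⟨hf, hd⟩
    have hle := WEIL_le_single D w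
    have hwle : weil (D + Finsupp.single w 1) ≤ weil D := by
      intro ω hω
      rw [Ad_mem_weil hD hF] at hω ⊢
      exact ⟨fun α hα => hω.1 α (Ad_mono hle hα), hω.2⟩
    rw [Ad_dg_add, Ad_dg_single] at hd
    by_cases hcase : ∃ f ∈ LL (D + Finsupp.single w 1), f ∉ LL D
    · obtain ⟨f, hf1, hf2⟩ := hcase
      have heq : weil D = weil (D + Finsupp.single w 1) := by
        apply le_antisymm _ hwle
        intro ω hω
        rw [Ad_mem_weil hD hF] at hω ⊢
        refine ⟨fun α hα => ?_, hω.2⟩
        obtain ⟨c', hc'⟩ := WEIL_step hR hD hF D w hf1 hf2 hα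
        have h3 := hω.1 _ hc'
        rw [map_sub, hω.2, sub_zero] at h3
        exact h3
      have hll := WEIL_ll_step hR hD hF D w (hfin D) hf1 hf2
      rw [heq]
      refine ⟨hf, ?_⟩
      rw [hd, hll]
      ring
    · push Not at hcase
      have hLL : LL (D + Finsupp.single w 1) = LL D := by
        apply le_antisymm hcase
        intro f hf
        rw [← Ad_cst_mem hD hF] at hf ⊢
        exact Ad_mono hle hf
      have hll : ll (D + Finsupp.single w 1) = ll D := by
        unfold ll
        rw [hLL]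
      obtain ⟨α₀, h1, h2⟩ := Ad_exists_step D w
      have h3 : α₀ ∉ Ad D ⊔ LinearMap.range (Ad_cst hD hF) := by
        intro h
        obtain ⟨β, hβ, γ, ⟨f, rfl⟩, hsum⟩ := Submodule.mem_sup.1 h
        have h4 : Ad_cst hD hF f ∈ Ad (D + Finsupp.single w 1) := by
          have : Ad_cst hD hF f = α₀ - β := by rw [← hsum]; abel
          rw [this]
          exact Submodule.sub_mem _ h1 (Ad_mono hle hβ)
        have h5 : Ad_cst hD hF f ∈ Ad D := by
          rw [Ad_cst_mem] at h4 ⊢
          exact hcase f h4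
        apply h2
        rw [← hsum]
        exact Submodule.add_mem _ hβ h5
      obtain ⟨ω₀, hω₀, hω₀'⟩ := Submodule.exists_dual_map_eq_bot_of_notMem h3 inferInstance
      have hker : ∀ x ∈ Ad D ⊔ LinearMap.range (Ad_cst hD hF), ω₀ x = 0 := by
        intro x hx
        have : ω₀ x ∈ Submodule.map ω₀ (Ad D ⊔ LinearMap.range (Ad_cst hD hF)) :=
          Submodule.mem_map_of_mem hx
        rw [hω₀', Submodule.mem_bot] at this
        exact this
      have hω₀D : ω₀ ∈ weil D := by
        rw [Ad_mem_weil hD hF]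
        exact ⟨fun α hα => hker α (Submodule.mem_sup_left hα),
          fun f => hker _ (Submodule.mem_sup_right ⟨f, rfl⟩)⟩
      have hω₀S : ω₀ ∉ weil (D + Finsupp.single w 1) := by
        intro h
        rw [Ad_mem_weil hD hF] at h
        exact hω₀ (h.1 _ h1)
      have hlast : ∀ ω ∈ weil D, ∃ c : ℂ, ω - c • ω₀ ∈ weil (D + Finsupp.single w 1) := by
        intro ω hω
        refine ⟨ω α₀ / ω₀ α₀, ?_⟩
        rw [Ad_mem_weil hD hF] at hω hω₀D ⊢
        refine ⟨fun α hα => ?_, fun f => ?_⟩
        · obtain ⟨d, hd'⟩ := Ad_step hR hF D w h1 h2 hα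
          have h4 := hω.1 _ hd'
          have h5 := hω₀D.1 _ hd'
          rw [map_sub, map_smul, sub_eq_zero, smul_eq_mul] at h4 h5
          rw [LinearMap.sub_apply, LinearMap.smul_apply, h4, h5, smul_eq_mul]
          field_simp
          ring
        · rw [LinearMap.sub_apply, LinearMap.smul_apply, hω.2, hω₀D.2, smul_zero, sub_zero]
      obtain ⟨h6, h7⟩ := Ad_finrank _ _ hwle ω₀ hω₀D hω₀S hlast
      refine ⟨h6, ?_⟩
      rw [h7]
      push_cast
      rw [hd, hll]
      ring
  intro D
  obtain ⟨w⟩ := Ad_place hD hF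
  -- descend from a large multiple
  have hind : ∀ (n : ℕ) (D : Dv F), c ≤ dg D + n → (Module.Finite ℂ (weil D) ∧
      (Module.finrank ℂ (weil D) : ℤ) = ll D - dg D - 1 + g) := by
    intro n
    induction n with
    | zero =>
      intro D hD'
      exact hbase D (by simpa using hD')
    | succ n ih =>
      intro D hD'
      apply hstep D w
      apply ih
      rw [Ad_dg_add, Ad_dg_single]
      push_cast at hD'
      omega
  exact hind (c - dg D).toNat D (by omega)

end Pool.Agent.Helper43.FV
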